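import Pool.Agent.W506.PM.Stm

set_option autoImplicit false

/-! Exactness in the middle by counting dimensions. -/

namespace Pool.Agent.W655.PM

open Pool.Agent.W506.PM DirectSum

universe u

variable {k : Type u} [Field k] {A : Type u} [Ring A] [Algebra k A]

section Gr

variable (𝒜 : ℕ → Submodule k A)

/-- the component of degree `N - s` -/
noncomputable def G (s N : ℕ) : Submodule k A := if s ≤ N then 𝒜 (N - s) else ⊥

lemma G_pos {s N : ℕ} (h : s ≤ N) : G 𝒜 s N = 𝒜 (N - s) := if_pos h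

lemma G_neg {s N : ℕ} (h : ¬ s ≤ N) : G 𝒜 s N = ⊥ := if_neg h

variable [GradedAlgebra 𝒜]

/-- the projection on the component of degree `N - s` -/
noncomputable def pj (s N : ℕ) : A →ₗ[k] A := if s ≤ N then GradedAlgebra.proj 𝒜 (N - s) else 0

lemma pj_mem (s N : ℕ) (a : A) : pj 𝒜 s N a ∈ G 𝒜 s N := by
  unfold pj G
  split_ifs
  · rw [GradedAlgebra.proj_apply]
    exact SetLike.coe_mem _
  · simp

lemma pj_of_mem (s N : ℕ) (a : A) (h : a ∈ G 𝒜 s N) : pj 𝒜 s N a = a := by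
  unfold pj
  unfold G at h
  split_ifs with hs
  · rw [if_pos hs] at h
    rw [GradedAlgebra.proj_apply]
    exact decompose_of_mem_same 𝒜 h
  · rw [if_neg hs] at h
    rw [Submodule.mem_bot] at h
    simp [h]

lemma pj_mul (s N : ℕ) (a b : A) (hb : b ∈ 𝒜 1) : pj 𝒜 s N (a * b) = pj 𝒜 (s + 1) N a * b := by
  unfold pj
  by_cases h1 : s + 1 ≤ N
  · rw [if_pos h1, if_pos (by omega), GradedAlgebra.proj_apply, GradedAlgebra.proj_apply]
    have h2 : N - s = N - (s + 1) + 1 := by omega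
    rw [h2]
    exact coe_decompose_mul_add_of_right_mem 𝒜 hb
  · rw [if_neg h1]
    by_cases h2 : s ≤ N
    · rw [if_pos h2, GradedAlgebra.proj_apply]
      have h3 : N - s = 0 := by omega
      rw [h3, coe_decompose_mul_of_right_mem_of_not_le 𝒜 hb (by omega)]
      simp
    · rw [if_neg h2]
      simp

lemma mul_mem_G (s N : ℕ) (a b : A) (ha : a ∈ G 𝒜 (s + 1) N) (hb : b ∈ 𝒜 1) :
    a * b ∈ G 𝒜 s N := by
  have h := pj_mul 𝒜 s N a b hb
  rw [pj_of_mem 𝒜 (s + 1) N a ha] at h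
  rw [← h]
  exact pj_mem 𝒜 s N _

/-- right multiplication with a matrix -/
noncomputable def dm {p q : ℕ} (c : Fin p → Fin q → A) (hc : ∀ i j, c i j ∈ 𝒜 1) (s N : ℕ) :
    (Fin p → G 𝒜 (s + 1) N) →ₗ[k] (Fin q → G 𝒜 s N) where
  toFun g j := ⟨∑ i, (g i : A) * c i j,
    Submodule.sum_mem _ fun i _ => mul_mem_G 𝒜 s N _ _ (g i).2 (hc i j)⟩
  map_add' g g' := by
    funext j
    refine Subtype.ext ?_
    simp [add_mul, Finset.sum_add_distrib]
  map_smul' t g := by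
    funext j
    refine Subtype.ext ?_
    simp [Finset.smul_sum]

lemma dm_apply {p q : ℕ} (c : Fin p → Fin q → A) (hc : ∀ i j, c i j ∈ 𝒜 1) (s N : ℕ)
    (g : Fin p → G 𝒜 (s + 1) N) (j : Fin q) :
    ((dm 𝒜 c hc s N g j : G 𝒜 s N) : A) = ∑ i, (g i : A) * c i j := rfl

/-- exactness in a fixed degree -/
lemma ker_eq_range {p q l : ℕ} (c : Fin p → Fin q → A) (hc : ∀ i j, c i j ∈ 𝒜 1)
    (c' : Fin q → Fin l → A) (hc' : ∀ i j, c' i j ∈ 𝒜 1)
    (h0 : ∀ i t, ∑ j, c i j * c' j t = 0)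
    (ex : ∀ f : Fin q → A, (∀ t, ∑ j, f j * c' j t = 0) → ∃ g : Fin p → A,
      ∀ j, f j = ∑ i, g i * c i j) (s N : ℕ) :
    LinearMap.ker (dm 𝒜 c' hc' s N) = LinearMap.range (dm 𝒜 c hc (s + 1) N) := by
  ext f
  rw [LinearMap.mem_ker, LinearMap.mem_range]
  constructor
  · intro hf
    obtain ⟨g, hg⟩ := ex (fun j => (f j : A)) (fun t => by
      rw [← dm_apply 𝒜 c' hc' s N f t, hf]
      rfl)
    refine ⟨fun i => ⟨pj 𝒜 (s + 1 + 1) N (g i), pj_mem 𝒜 _ _ _⟩, ?_⟩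
    funext j
    refine Subtype.ext ?_
    rw [dm_apply, ← pj_of_mem 𝒜 (s + 1) N (f j) (f j).2, hg j, map_sum]
    exact Finset.sum_congr rfl fun i _ => (pj_mul 𝒜 (s + 1) N _ _ (hc i j)).symm
  · rintro ⟨g, rfl⟩
    funext t
    refine Subtype.ext ?_
    rw [dm_apply]
    simp only [dm_apply, Finset.sum_mul]
    rw [Finset.sum_comm]
    simp only [mul_assoc, ← Finset.mul_sum, h0]
    simp

lemma range_le_ker {p q l : ℕ} (c : Fin p → Fin q → A) (hc : ∀ i j, c i j ∈ 𝒜 1)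
    (c' : Fin q → Fin l → A) (hc' : ∀ i j, c' i j ∈ 𝒜 1)
    (h0 : ∀ i t, ∑ j, c i j * c' j t = 0) (s N : ℕ) :
    LinearMap.range (dm 𝒜 c hc (s + 1) N) ≤ LinearMap.ker (dm 𝒜 c' hc' s N) := by
  rintro _ ⟨g, rfl⟩
  rw [LinearMap.mem_ker]
  funext t
  refine Subtype.ext ?_
  rw [dm_apply]
  simp only [dm_apply, Finset.sum_mul]
  rw [Finset.sum_comm]
  simp only [mul_assoc, ← Finset.mul_sum, h0]
  simp

end Gr

/-- dimensions -/
def hh (s N : ℕ) : ℕ := if s ≤ N then (N - s + 3).choose 3 else 0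

lemma finrank_G (𝒜 : ℕ → Submodule k A) (h : ∀ n, Module.finrank k (𝒜 n) = (n + 3).choose 3)
    (s N : ℕ) : Module.finrank k (G 𝒜 s N) = hh s N := by
  unfold hh
  by_cases hs : s ≤ N
  · rw [if_pos hs, G_pos 𝒜 hs]
    exact h _
  · rw [if_neg hs, G_neg 𝒜 hs]
    simp

lemma hh_id (N : ℕ) (hN : 1 ≤ N) : hh 0 N + 6 * hh 2 N + hh 4 N = 4 * hh 1 N + 4 * hh 3 N := by
  unfold hh
  by_cases h4 : 4 ≤ N
  · obtain ⟨M, rfl⟩ := Nat.exists_eq_add_of_le' h4
    rw [if_pos (by omega), if_pos (by omega), if_pos (by omega), if_pos (by omega),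
      if_pos (by omega)]
    rw [show M + 4 - 0 + 3 = M + 3 + 1 + 1 + 1 + 1 by omega,
      show M + 4 - 1 + 3 = M + 3 + 1 + 1 + 1 by omega,
      show M + 4 - 2 + 3 = M + 3 + 1 + 1 by omega,
      show M + 4 - 3 + 3 = M + 3 + 1 by omega, show M + 4 - 4 + 3 = M + 3 by omega]
    simp only [Nat.choose_succ_succ' _ 2, Nat.choose_succ_succ' _ 1, Nat.choose_succ_succ' _ 0,
      Nat.choose_zero_right]
    omega
  · interval_cases N <;> decide

theorem eul : TaskEUL.{u} := by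
  intro k _ A _ _ 𝒜 x m m' hconn hdim hx hm hm' gen c1 c2 c3 ex1 ex3 ex4
  refine ⟨c1, c2, c3, ex1, ?_, ex3, ex4⟩
  let _ : SetLike.GradedMonoid 𝒜 := hconn.graded
  let _ : DirectSum.Decomposition 𝒜 := hconn.internal.chooseDecomposition
  let _ : GradedAlgebra 𝒜 := { }
  have hfin : ∀ s N, Module.Finite k (G 𝒜 s N) := by
    intro s N
    by_cases hs : s ≤ N
    · rw [G_pos 𝒜 hs]
      exact hconn.finite _
    · rw [G_neg 𝒜 hs]
      infer_instance
  -- the maps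
  let X1 : Fin 4 → Fin 1 → A := fun j _ => x j
  let X4 : Fin 1 → Fin 4 → A := fun _ j => x j
  let M3 : Fin 4 → Fin 6 → A := fun j i => m' i j
  have hX1 : ∀ i j, X1 i j ∈ 𝒜 1 := fun i _ => hx i
  have hX4 : ∀ i j, X4 i j ∈ 𝒜 1 := fun _ j => hx j
  have hM3 : ∀ i j, M3 i j ∈ 𝒜 1 := fun i j => hm' j i
  have hom : ∀ N, 1 ≤ N → ∀ g : Fin 6 → G 𝒜 2 N, dm 𝒜 m hm 1 N g = 0 →
      ∃ f : Fin 4 → G 𝒜 3 N, dm 𝒜 M3 hM3 2 N f = g := by
    intro N hN g hg
    have e1 := ker_eq_range 𝒜 m hm X1 hX1 (fun i _ => c1 i)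
      (fun f hf => ex1 f (hf 0)) 0 N
    have e3 := ker_eq_range 𝒜 X4 hX4 M3 hM3 (fun _ i => c3 i)
      (fun f hf => by
        obtain ⟨h, hh⟩ := ex3 f hf
        exact ⟨fun _ => h, fun j => by simp [X4, hh j]⟩) 2 N
    have e2 := range_le_ker 𝒜 M3 hM3 m hm (fun i t => c2 i t) 1 N
    have s1 : LinearMap.range (dm 𝒜 X1 hX1 0 N) = ⊤ := by
      rw [LinearMap.range_eq_top]
      intro a
      obtain ⟨n, rfl⟩ := Nat.exists_eq_add_of_le' hN
      have ha : ((a 0 : G 𝒜 0 (n + 1)) : A) ∈ 𝒜 (n + 1) := by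
        have := (a 0).2
        unfold G at this
        simpa using this
      obtain ⟨f, hf⟩ := gen n _ ha
      refine ⟨fun j => ⟨pj 𝒜 1 (n + 1) (f j), pj_mem 𝒜 _ _ _⟩, ?_⟩
      funext t
      refine Subtype.ext ?_
      rw [dm_apply, Subsingleton.elim t 0, ← pj_of_mem 𝒜 0 (n + 1) (a 0 : A) (a 0).2, hf, map_sum]
      exact Finset.sum_congr rfl fun j _ => (pj_mul 𝒜 0 (n + 1) _ _ (hx j)).symm
    have s4 : LinearMap.ker (dm 𝒜 X4 hX4 3 N) = ⊥ := by
      rw [LinearMap.ker_eq_bot']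
      intro h hh
      funext t
      refine Subtype.ext ?_
      rw [Subsingleton.elim t 0]
      refine ex4 _ fun j => ?_
      have := congrArg Subtype.val (congrFun hh j)
      rw [dm_apply] at this
      simpa [X4] using this
    have r1 := LinearMap.finrank_range_add_finrank_ker (dm 𝒜 X1 hX1 0 N)
    have r2 := LinearMap.finrank_range_add_finrank_ker (dm 𝒜 m hm 1 N)
    have r3 := LinearMap.finrank_range_add_finrank_ker (dm 𝒜 M3 hM3 2 N)
    have r4 := LinearMap.finrank_range_add_finrank_ker (dm 𝒜 X4 hX4 3 N)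
    rw [s1, finrank_top] at r1
    rw [s4, finrank_bot] at r4
    rw [e1] at r1
    rw [e3] at r3
    simp only [Module.finrank_pi_fintype, finrank_G 𝒜 hdim, Finset.sum_const, Finset.card_univ,
      Fintype.card_fin, smul_eq_mul] at r1 r2 r3 r4
    have hid := hh_id N hN
    have heq : LinearMap.range (dm 𝒜 M3 hM3 (1 + 1) N) = LinearMap.ker (dm 𝒜 m hm 1 N) := by
      refine Submodule.eq_of_le_of_finrank_eq e2 ?_
      simp only [Nat.reduceAdd] at *
      omega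
    have hg' : g ∈ LinearMap.ker (dm 𝒜 m hm 1 N) := LinearMap.mem_ker.2 hg
    rw [← heq] at hg'
    exact hg'
  intro g hg
  classical
  -- decompose
  have hN : ∀ N, ∃ f : Fin 4 → A, ∀ i, pj 𝒜 2 N (g i) = ∑ j, f j * m' i j := by
    intro N
    by_cases h1 : 1 ≤ N
    · obtain ⟨f, hf⟩ := hom N h1 (fun i => ⟨pj 𝒜 2 N (g i), pj_mem 𝒜 _ _ _⟩) (by
        funext j
        refine Subtype.ext ?_
        rw [dm_apply]
        simp only
        have h2 : ∑ i, pj 𝒜 2 N (g i) * m i j = pj 𝒜 1 N (∑ i, g i * m i j) := by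
          rw [map_sum]
          exact Finset.sum_congr rfl fun i _ => (pj_mul 𝒜 1 N _ _ (hm i j)).symm
        rw [h2, hg j, map_zero]
        rfl)
      refine ⟨fun j => (f j : A), fun i => ?_⟩
      have := congrArg Subtype.val (congrFun hf i)
      rw [dm_apply] at this
      exact this.symm
    · refine ⟨0, fun i => ?_⟩
      unfold pj
      rw [if_neg (by omega)]
      simp
  choose F hF using hN
  let S : Finset ℕ := Finset.univ.biUnion fun i : Fin 6 => (decompose 𝒜 (g i)).support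
  refine ⟨fun j => ∑ n ∈ S, F (n + 2) j, fun i => ?_⟩
  have h1 : g i = ∑ n ∈ S, (decompose 𝒜 (g i) n : A) := by
    conv_lhs => rw [← sum_support_decompose 𝒜 (g i)]
    refine Finset.sum_subset ?_ ?_
    · intro n hn
      exact Finset.mem_biUnion.2 ⟨i, Finset.mem_univ i, hn⟩
    · intro n _ hn
      rw [DFinsupp.notMem_support_iff.1 hn]
      rfl
  have h2 : ∀ n, (decompose 𝒜 (g i) n : A) = ∑ j, F (n + 2) j * m' i j := by
    intro n
    rw [← hF (n + 2) i]
    unfold pj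
    rw [if_pos (by omega), Nat.add_sub_cancel, GradedAlgebra.proj_apply]
  rw [h1]
  simp only [h2, Finset.sum_mul]
  rw [Finset.sum_comm]

end Pool.Agent.W655.PM
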