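import Pool.Agent.W506.PM.Stm

set_option autoImplicit false

/-! The equations of the point scheme have exactly 19 solutions. -/

namespace Pool.Agent.W655.PM

open Pool.Agent.W506.PM
open scoped LinearAlgebra.Projectivization

universe u

variable {k : Type u} [Field k]

/-- the symmetry -/
def sg (p : Fin 4 → k) : Fin 4 → k := ![-p 0, -p 1, -p 2, p 3]

lemma sg_ne (p : Fin 4 → k) (h : p ≠ 0) : sg p ≠ 0 := by
  intro h0
  apply h
  funext i
  have h1 := congrFun h0 i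
  fin_cases i <;> simpa [sg] using h1

lemma eqs_sg (i0 κ : k) (hi : i0 ^ 2 = -1) (p q : Fin 4 → k) (h : Eqs i0 κ p q) :
    Eqs i0 κ q (sg p) := by
  obtain ⟨e1, e2, e3, e4, e5, e6⟩ := h
  simp only [Eqs, sg, Matrix.cons_val]
  refine ⟨?_, ?_, ?_, ?_, ?_, ?_⟩
  · linear_combination -e1
  · linear_combination -e2
  · linear_combination -e3
  · linear_combination (-i0) * e4 + (-p 0 * q 3) * hi
  · linear_combination (i0) * e5 + (-p 2 * q 3) * hi
  · linear_combination e6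

/-- scaling of the first vector -/
lemma eqs_smul (i0 κ : k) (p q : Fin 4 → k) (a : k) (h : Eqs i0 κ p q) : Eqs i0 κ (a • p) q := by
  obtain ⟨e1, e2, e3, e4, e5, e6⟩ := h
  simp only [Eqs, Pi.smul_apply, smul_eq_mul]
  refine ⟨?_, ?_, ?_, ?_, ?_, ?_⟩
  · linear_combination a * e1
  · linear_combination a * e2
  · linear_combination a * e3
  · linear_combination a * e4
  · linear_combination a * e5
  · linear_combination a * e6

lemma ne_zero_coord (p : Fin 4 → k) (h : p ≠ 0) : p 0 ≠ 0 ∨ p 1 ≠ 0 ∨ p 2 ≠ 0 ∨ p 3 ≠ 0 := by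
  by_contra hcon
  push Not at hcon
  apply h
  funext i
  fin_cases i
  · exact hcon.1
  · exact hcon.2.1
  · exact hcon.2.2.1
  · exact hcon.2.2.2

/-- solutions with `p 3 = 0` -/
lemma case0 (h2 : (2 : k) ≠ 0) (i0 κ : k) (hi : i0 ^ 2 = -1) (p q : Fin 4 → k) (hp : p ≠ 0)
    (hq : q ≠ 0) (h : Eqs i0 κ p q) (h3 : p 3 = 0) :
    (p 0 = 0 ∧ p 2 = 0 ∧ p 1 ≠ 0 ∧ q 0 = 0 ∧ q 1 = 0 ∧ q 2 = 0 ∧ q 3 ≠ 0) ∨
    (∃ b : k, b ≠ 0 ∧ p 0 ≠ 0 ∧ p 0 = p 2 ∧ p 1 = p 0 ∧ q 0 = b * p 0 ∧ q 1 = b * p 0 ∧ q 2 = b * p 0 ∧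
      q 3 = 0) ∨
    (∃ b : k, b ≠ 0 ∧ p 0 ≠ 0 ∧ p 0 ≠ p 2 ∧ p 0 ^ 2 + p 2 ^ 2 = 0 ∧ p 1 ^ 2 = 2 * κ * p 0 ^ 2 ∧
      q 0 = b * p 0 ∧ q 1 = - (b * p 1) ∧ q 2 = b * p 2 ∧ q 3 = 0) := by
  have hi0 : i0 ≠ 0 := by
    rintro rfl
    simp at hi
  obtain ⟨e1, e2, e3, e4, e5, e6⟩ := h
  rw [h3] at e4 e5 e6
  have f4 : p 0 * q 3 = 0 := by
    have : i0 * (p 0 * q 3) = 0 := by rw [← e4]; ring
    exact (mul_eq_zero.1 this).resolve_left hi0
  have f5 : p 2 * q 3 = 0 := by
    have : i0 * (p 2 * q 3) = 0 := by linear_combination e5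
    exact (mul_eq_zero.1 this).resolve_left hi0
  by_cases h0 : p 0 = 0
  · by_cases h20 : p 2 = 0
    · left
      have h1 : p 1 ≠ 0 := by
        rcases ne_zero_coord p hp with h | h | h | h
        · exact absurd h0 h
        · exact h
        · exact absurd h20 h
        · exact absurd h3 h
      rw [h0, h20] at e1 e2 e3
      have g0 : q 0 = 0 := by
        have : p 1 * q 0 = 0 := by linear_combination e1
        exact (mul_eq_zero.1 this).resolve_left h1
      have g2 : q 2 = 0 := by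
        have : p 1 * q 2 = 0 := by linear_combination e2
        exact (mul_eq_zero.1 this).resolve_left h1
      have g1 : q 1 = 0 := by
        have : p 1 * q 1 = 0 := by linear_combination e3
        exact (mul_eq_zero.1 this).resolve_left h1
      refine ⟨h0, h20, h1, g0, g1, g2, ?_⟩
      rcases ne_zero_coord q hq with h | h | h | h
      · exact absurd g0 h
      · exact absurd g1 h
      · exact absurd g2 h
      · exact h
    · exfalso
      -- p0 = 0, p2 ≠ 0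
      have g3 : q 3 = 0 := (mul_eq_zero.1 f5).resolve_left h20
      rw [h0] at e1 e2 e3 e6
      have g0 : q 0 = 0 := by
        have : p 2 * q 0 = 0 := by linear_combination e6
        exact (mul_eq_zero.1 this).resolve_left h20
      rw [g0] at e1 e2 e3
      have g2 : q 2 = 0 := by
        have : p 2 * q 2 = 0 := by linear_combination -e1
        exact (mul_eq_zero.1 this).resolve_left h20
      rw [g2] at e2
      have g1 : q 1 = 0 := by
        have : p 2 * q 1 = 0 := by linear_combination e2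
        exact (mul_eq_zero.1 this).resolve_left h20
      rcases ne_zero_coord q hq with h | h | h | h
      · exact h g0
      · exact h g1
      · exact h g2
      · exact h g3
  · right
    have g3 : q 3 = 0 := (mul_eq_zero.1 f4).resolve_left h0
    obtain ⟨b, hb⟩ : ∃ b, q 0 = b * p 0 := ⟨q 0 / p 0, by field_simp⟩
    have hb2 : q 2 = b * p 2 := by
      have : p 0 * (q 2 - b * p 2) = 0 := by linear_combination -e6 + p 2 * hb
      linear_combination (mul_eq_zero.1 this).resolve_left h0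
    have hb0 : b ≠ 0 := by
      rintro rfl
      rw [zero_mul] at hb hb2
      rw [hb, hb2] at e1
      have g1 : q 1 = 0 := by
        have : p 0 * q 1 = 0 := by linear_combination e1
        exact (mul_eq_zero.1 this).resolve_left h0
      rcases ne_zero_coord q hq with h | h | h | h
      · exact h hb
      · exact h g1
      · exact h hb2
      · exact h g3
    obtain ⟨t, ht⟩ : ∃ t, q 1 = b * t := ⟨q 1 / b, by field_simp⟩
    rw [hb, hb2, ht] at e1 e2 e3
    have f1 : p 0 * (p 1 + t) = p 0 ^ 2 + p 2 ^ 2 := by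
      have : b * (p 0 * (p 1 + t) - (p 0 ^ 2 + p 2 ^ 2)) = 0 := by linear_combination e1
      linear_combination (mul_eq_zero.1 this).resolve_left hb0
    have f2 : p 2 * (p 1 + t) = p 0 ^ 2 + p 2 ^ 2 := by
      have : b * (p 2 * (p 1 + t) - (p 0 ^ 2 + p 2 ^ 2)) = 0 := by linear_combination e2
      linear_combination (mul_eq_zero.1 this).resolve_left hb0
    have f3 : p 1 * t = (1 / 2 - κ) * p 0 ^ 2 + (1 / 2 + κ) * p 2 ^ 2 := by
      have : b * (p 1 * t - ((1 / 2 - κ) * p 0 ^ 2 + (1 / 2 + κ) * p 2 ^ 2)) = 0 := by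
        linear_combination e3
      linear_combination (mul_eq_zero.1 this).resolve_left hb0
    by_cases h02 : p 0 = p 2
    · left
      rw [← h02] at f1 f3
      have s1 : p 1 + t = 2 * p 0 := by
        have : p 0 * (p 1 + t - 2 * p 0) = 0 := by linear_combination f1
        linear_combination (mul_eq_zero.1 this).resolve_left h0
      have s2 : p 1 * t = p 0 ^ 2 := by
        have : (2:k) * (p 1 * t - p 0 ^ 2) = 0 := by
          have e : (2:k) * (1/2) = 1 := by field_simp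
          linear_combination 2 * f3 + 2 * p 0 ^ 2 * e
        linear_combination (mul_eq_zero.1 this).resolve_left h2
      have s3 : (p 1 - p 0) ^ 2 = 0 := by linear_combination p 1 * s1 - s2
      have s4 : p 1 = p 0 := sub_eq_zero.1 (pow_eq_zero_iff (two_ne_zero)|>.1 s3)
      refine ⟨b, hb0, h0, h02, s4, hb, ?_, ?_, g3⟩
      · rw [ht]
        linear_combination b * s1 - b * s4
      · rw [hb2, ← h02]
    · right
      have s1 : p 1 + t = 0 := by
        have : (p 0 - p 2) * (p 1 + t) = 0 := by linear_combination f1 - f2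
        exact (mul_eq_zero.1 this).resolve_left (sub_ne_zero.2 h02)
      have s2 : p 0 ^ 2 + p 2 ^ 2 = 0 := by linear_combination -f1 + p 0 * s1
      refine ⟨b, hb0, h0, h02, s2, ?_, hb, ?_, hb2, g3⟩
      · linear_combination -f3 + p 1 * s1 - (1 / 2 + κ) * s2
      · rw [ht]
        linear_combination b * s1

/-- solutions with `p 3 ≠ 0` -/
lemma case1 (i0 κ : k) (hi : i0 ^ 2 = -1) (p q : Fin 4 → k)
    (hq : q ≠ 0) (h : Eqs i0 κ p q) (h3 : p 3 ≠ 0) :
    (p 0 = 0 ∧ p 2 = 0 ∧ p 1 = 0 ∧ q 0 = 0 ∧ q 1 ≠ 0 ∧ q 2 = 0 ∧ q 3 = 0) ∨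
    (∃ b t : k, b ≠ 0 ∧ p 0 ≠ 0 ∧ p 2 ≠ 0 ∧ p 3 ^ 2 = -2 * i0 * (p 0 * p 2) ∧
      p 0 * t = i0 * (p 0 ^ 2 - p 2 ^ 2 - p 0 * p 1) ∧
      p 2 * t = i0 * (p 0 ^ 2 - p 2 ^ 2 + p 1 * p 2) ∧
      p 1 * t = i0 * ((1 / 2 - κ) * p 0 ^ 2 - (1 / 2 + κ) * p 2 ^ 2) ∧
      q 0 = b * (i0 * p 0) ∧ q 1 = b * t ∧ q 2 = - (b * (i0 * p 2)) ∧ q 3 = b * p 3) := by
  have hi0 : i0 ≠ 0 := by
    rintro rfl
    simp at hi
  obtain ⟨e1, e2, e3, e4, e5, e6⟩ := h
  obtain ⟨b, hb⟩ : ∃ b, q 3 = b * p 3 := ⟨q 3 / p 3, by field_simp⟩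
  have g0 : q 0 = b * (i0 * p 0) := by
    have : p 3 * (q 0 - b * (i0 * p 0)) = 0 := by linear_combination e4 + i0 * p 0 * hb
    linear_combination (mul_eq_zero.1 this).resolve_left h3
  have g2 : q 2 = - (b * (i0 * p 2)) := by
    have : p 3 * (q 2 + b * (i0 * p 2)) = 0 := by linear_combination e5 - i0 * p 2 * hb
    linear_combination (mul_eq_zero.1 this).resolve_left h3
  by_cases hb0 : b = 0
  · left
    subst hb0
    rw [zero_mul] at hb g0 g2
    rw [neg_zero] at g2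
    have g1 : q 1 ≠ 0 := by
      rcases ne_zero_coord q hq with h | h | h | h
      · exact absurd g0 h
      · exact h
      · exact absurd g2 h
      · exact absurd hb h
    rw [g0, g2] at e1 e2 e3
    refine ⟨?_, ?_, ?_, g0, g1, g2, hb⟩
    · have : q 1 * p 0 = 0 := by linear_combination e1
      exact (mul_eq_zero.1 this).resolve_left g1
    · have : q 1 * p 2 = 0 := by linear_combination e2
      exact (mul_eq_zero.1 this).resolve_left g1
    · have : q 1 * p 1 = 0 := by linear_combination e3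
      exact (mul_eq_zero.1 this).resolve_left g1
  · right
    obtain ⟨t, ht⟩ : ∃ t, q 1 = b * t := ⟨q 1 / b, by field_simp⟩
    rw [g0, g2, ht] at e1 e2 e3
    rw [g0, g2, hb] at e6
    have f6 : p 3 ^ 2 = -2 * i0 * (p 0 * p 2) := by
      have : b * (p 3 ^ 2 + 2 * i0 * (p 0 * p 2)) = 0 := by linear_combination e6
      linear_combination (mul_eq_zero.1 this).resolve_left hb0
    have hp0 : p 0 ≠ 0 := by
      intro h0
      apply h3
      rw [h0] at f6
      exact pow_eq_zero_iff two_ne_zero |>.1 (by linear_combination f6)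
    have hp2 : p 2 ≠ 0 := by
      intro h0
      apply h3
      rw [h0] at f6
      exact pow_eq_zero_iff two_ne_zero |>.1 (by linear_combination f6)
    refine ⟨b, t, hb0, hp0, hp2, f6, ?_, ?_, ?_, g0, ht, g2, hb⟩
    · have : b * (p 0 * t - i0 * (p 0 ^ 2 - p 2 ^ 2 - p 0 * p 1)) = 0 := by linear_combination e1
      linear_combination (mul_eq_zero.1 this).resolve_left hb0
    · have : b * (p 2 * t - i0 * (p 0 ^ 2 - p 2 ^ 2 + p 1 * p 2)) = 0 := by linear_combination e2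
      linear_combination (mul_eq_zero.1 this).resolve_left hb0
    · have : b * (p 1 * t - i0 * ((1 / 2 - κ) * p 0 ^ 2 - (1 / 2 + κ) * p 2 ^ 2)) = 0 := by
        linear_combination e3
      linear_combination (mul_eq_zero.1 this).resolve_left hb0

/-- uniqueness of the second vector -/
lemma uniq (h2 : (2 : k) ≠ 0) (i0 κ : k) (hi : i0 ^ 2 = -1) (p q q' : Fin 4 → k) (hp : p ≠ 0)
    (hq : q ≠ 0) (hq' : q' ≠ 0) (h : Eqs i0 κ p q) (h' : Eqs i0 κ p q') : ∃ c : k, q' = c • q := by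
  by_cases h3 : p 3 = 0
  · rcases case0 h2 i0 κ hi p q hp hq h h3 with ⟨a0, a2, a1, b0, b1, b2, b3⟩ |
      ⟨b, hb, a0, a2, a1, b0, b1, b2, b3⟩ | ⟨b, hb, a0, a02, a2, a1, b0, b1, b2, b3⟩ <;>
    rcases case0 h2 i0 κ hi p q' hp hq' h' h3 with ⟨a0', a2', a1', b0', b1', b2', b3'⟩ |
      ⟨b', hb', a0', a2', a1', b0', b1', b2', b3'⟩ |
      ⟨b', hb', a0', a02', a2', a1', b0', b1', b2', b3'⟩
    · refine ⟨q' 3 / q 3, ?_⟩
      funext i
      rw [Pi.smul_apply, smul_eq_mul]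
      fin_cases i
      · simp [b0, b0']
      · simp [b1, b1']
      · simp [b2, b2']
      · simp only [Fin.reduceFinMk]
        field_simp
    · exact absurd a0 a0'
    · exact absurd a0 a0'
    · exact absurd a0' a0
    · refine ⟨b' / b, ?_⟩
      funext i
      rw [Pi.smul_apply, smul_eq_mul]
      fin_cases i
      · simp only [Fin.zero_eta]
        rw [b0, b0']; field_simp
      · simp only [Fin.mk_one]
        rw [b1, b1']; field_simp
      · simp only [Fin.reduceFinMk]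
        rw [b2, b2']; field_simp
      · simp [b3, b3']
    · exact absurd a2 a02'
    · exact absurd a0' a0
    · exact absurd a2' a02
    · refine ⟨b' / b, ?_⟩
      funext i
      rw [Pi.smul_apply, smul_eq_mul]
      fin_cases i
      · simp only [Fin.zero_eta]
        rw [b0, b0']; field_simp
      · simp only [Fin.mk_one]
        rw [b1, b1']; field_simp
      · simp only [Fin.reduceFinMk]
        rw [b2, b2']; field_simp
      · simp [b3, b3']
  · rcases case1 i0 κ hi p q hq h h3 with ⟨a0, a2, a1, b0, b1, b2, b3⟩ |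
      ⟨b, t, hb, a0, a2, a3, c0, c2, c1, b0, b1, b2, b3⟩ <;>
    rcases case1 i0 κ hi p q' hq' h' h3 with ⟨a0', a2', a1', b0', b1', b2', b3'⟩ |
      ⟨b', t', hb', a0', a2', a3', c0', c2', c1', b0', b1', b2', b3'⟩
    · refine ⟨q' 1 / q 1, ?_⟩
      funext i
      rw [Pi.smul_apply, smul_eq_mul]
      fin_cases i
      · simp [b0, b0']
      · simp only [Fin.mk_one]
        field_simp
      · simp [b2, b2']
      · simp [b3, b3']
    · exact absurd a0 a0'
    · exact absurd a0' a0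
    · refine ⟨b' / b, ?_⟩
      have ht : t = t' := mul_left_cancel₀ a0 (c0.trans c0'.symm)
      subst ht
      funext i
      rw [Pi.smul_apply, smul_eq_mul]
      fin_cases i
      · simp only [Fin.zero_eta]
        rw [b0, b0']; field_simp
      · simp only [Fin.mk_one]
        rw [b1, b1']; field_simp
      · simp only [Fin.reduceFinMk]
        rw [b2, b2']; field_simp
      · simp only [Fin.reduceFinMk]
        rw [b3, b3']; field_simp

/-- the cubic polynomial -/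
def Fc (κ u : k) : k := u ^ 3 + (1 + 4 * κ) * u ^ 2 + (1 - 4 * κ) * u + 1

/-- the points with `p 3 = 1` -/
noncomputable def Ep (i0 w : k) : Fin 4 → k :=
  ![w, i0 * (w ^ 2 - (i0 / (2 * w)) ^ 2) * (w - i0 / (2 * w)), i0 / (2 * w), 1]

/-- the points with `p 0 = 1`, `p 3 = 0` -/
def Cp (e c : k) : Fin 4 → k := ![1, e, c, 0]

/-- the normalised solutions -/
def InS (i0 κ : k) (p : Fin 4 → k) : Prop :=
  p = ![0, 1, 0, 0] ∨ p = ![0, 0, 0, 1] ∨ p = ![1, 1, 1, 0] ∨
    (∃ e c : k, e ^ 2 = 2 * κ ∧ c ^ 2 = -1 ∧ p = Cp e c) ∨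
    ∃ w : k, Fc κ (4 * w ^ 4) = 0 ∧ p = Ep i0 w

lemma half (h2 : (2 : k) ≠ 0) : (1 / 2 : k) + 1 / 2 = 1 := by field_simp; norm_num

lemma cubic_iff (h2 : (2 : k) ≠ 0) (i0 κ w z : k) (hi : i0 ^ 2 = -1) (hw : w ≠ 0)
    (hz : 2 * w * z = i0) : Fc κ (4 * w ^ 4) = 0 ↔
      (w ^ 2 - z ^ 2) ^ 3 = (1 / 2 - κ) * w ^ 2 - (1 / 2 + κ) * z ^ 2 := by
  have hf : 4 * w ^ 2 * z ^ 2 = -1 := by
    rw [← hi, ← hz]; ring
  have hη : 2 * (1 / 2 : k) = 1 := by field_simp
  have key : Fc κ (4 * w ^ 4) = 64 * w ^ 6 *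
      ((w ^ 2 - z ^ 2) ^ 3 - ((1 / 2 - κ) * w ^ 2 - (1 / 2 + κ) * z ^ 2)) := by
    have g : 4 * w ^ 4 + 1 = 4 * w ^ 2 * (w ^ 2 - z ^ 2) := by linear_combination hf
    have g1 : Fc κ (4 * w ^ 4) = (4 * w ^ 4 + 1) ^ 3 - (2 - 4 * κ) * (4 * w ^ 4) ^ 2 -
        (2 + 4 * κ) * (4 * w ^ 4) := by unfold Fc; ring
    rw [g1, g]
    linear_combination (32 * w ^ 8 - 32 * w ^ 6 * z ^ 2) * hη + (-8 * w ^ 4 - 16 * w ^ 4 * κ) * hf
  rw [key]
  have h64 : (64 : k) * w ^ 6 ≠ 0 := by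
    have : (64 : k) = 2 ^ 6 := by norm_num
    rw [this]
    exact mul_ne_zero (pow_ne_zero _ h2) (pow_ne_zero _ hw)
  constructor
  · intro h
    exact sub_eq_zero.1 ((mul_eq_zero.1 h).resolve_left h64)
  · intro h
    rw [h, sub_self, mul_zero]

lemma w_ne (κ w : k) (h : Fc κ (4 * w ^ 4) = 0) : w ≠ 0 := by
  rintro rfl
  simp [Fc] at h

lemma caseE (h2 : (2 : k) ≠ 0) (i0 κ : k) (hi : i0 ^ 2 = -1) (p : Fin 4 → k) (t : k)
    (h3 : p 3 = 1) (a0 : p 0 ≠ 0) (f6 : 1 = -2 * i0 * (p 0 * p 2))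
    (c0 : p 0 * t = i0 * (p 0 ^ 2 - p 2 ^ 2 - p 0 * p 1))
    (c2 : p 2 * t = i0 * (p 0 ^ 2 - p 2 ^ 2 + p 1 * p 2))
    (c1 : p 1 * t = i0 * ((1 / 2 - κ) * p 0 ^ 2 - (1 / 2 + κ) * p 2 ^ 2)) :
    Fc κ (4 * p 0 ^ 4) = 0 ∧ p = Ep i0 (p 0) := by
  have hi0 : i0 ≠ 0 := by
    rintro rfl
    simp at hi
  have hz : 2 * p 0 * p 2 = i0 := by
    linear_combination (-i0) * f6 + (2 * (p 0 * p 2)) * hi
  have hz' : p 2 = i0 / (2 * p 0) := by
    rw [eq_div_iff (mul_ne_zero h2 a0)]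
    linear_combination hz
  have g1 : p 1 = i0 * (p 0 ^ 2 - p 2 ^ 2) * (p 0 - p 2) := by
    have : i0 * (i0 * p 1 - (p 2 - p 0) * (p 0 ^ 2 - p 2 ^ 2)) = 0 := by
      linear_combination p 2 * c0 - p 0 * c2 - i0 * p 1 * hz
    have h4 := (mul_eq_zero.1 this).resolve_left hi0
    linear_combination (-i0) * h4 + (p 1) * hi
  have gt : t = (p 0 ^ 2 - p 2 ^ 2) * (p 0 + p 2) := by
    have : p 0 * (t - (p 0 ^ 2 - p 2 ^ 2) * (p 0 + p 2)) = 0 := by
      linear_combination c0 - i0 * p 0 * g1 - (p 0 ^ 2 - p 2 ^ 2) * hz - (p 0 * (p 0 ^ 2 - p 2 ^ 2) * (p 0 - p 2)) * hi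
    linear_combination (mul_eq_zero.1 this).resolve_left a0
  refine ⟨?_, ?_⟩
  · rw [cubic_iff h2 i0 κ (p 0) (p 2) hi a0 hz]
    rw [gt, g1] at c1
    have : i0 * ((p 0 ^ 2 - p 2 ^ 2) ^ 3 - ((1 / 2 - κ) * p 0 ^ 2 - (1 / 2 + κ) * p 2 ^ 2)) = 0 := by
      linear_combination c1
    exact sub_eq_zero.1 ((mul_eq_zero.1 this).resolve_left hi0)
  · funext i
    fin_cases i
    · simp [Ep]
    · simp only [Ep, Fin.mk_one, Matrix.cons_val]
      rw [g1, hz']
    · simp only [Ep, Fin.reduceFinMk, Matrix.cons_val]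
      exact hz'
    · simp [Ep, h3]

/-- converse -/
lemma conv (h2 : (2 : k) ≠ 0) (i0 κ : k) (hi : i0 ^ 2 = -1) (p : Fin 4 → k) (h : InS i0 κ p) :
    p ≠ 0 ∧ ∃ q : Fin 4 → k, q ≠ 0 ∧ Eqs i0 κ p q := by
  have hη : (1 / 2 : k) + 1 / 2 = 1 := half h2
  rcases h with rfl | rfl | rfl | ⟨e, c, he, hc, rfl⟩ | ⟨w, hw, rfl⟩
  · refine ⟨fun h => ?_, ![0, 0, 0, 1], fun h => ?_, ?_⟩
    · simpa using congrFun h 1
    · simpa using congrFun h 3
    · simp [Eqs]
  · refine ⟨fun h => ?_, ![0, 1, 0, 0], fun h => ?_, ?_⟩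
    · simpa using congrFun h 3
    · simpa using congrFun h 1
    · simp [Eqs]
  · refine ⟨fun h => ?_, ![1, 1, 1, 0], fun h => ?_, ?_⟩
    · simpa using congrFun h 0
    · simpa using congrFun h 0
    · unfold Eqs
      refine ⟨by simp, by simp, ?_, by simp, by simp, by simp⟩
      simp only [Matrix.cons_val]
      linear_combination -hη
  · refine ⟨fun h => ?_, ![1, -e, c, 0], fun h => ?_, ?_⟩
    · simpa [Cp] using congrFun h 0
    · simpa using congrFun h 0
    · simp only [Eqs, Cp, Matrix.cons_val]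
      refine ⟨?_, ?_, ?_, by ring, by ring, by ring⟩
      · linear_combination -hc
      · linear_combination -hc
      · linear_combination -he - (1 / 2 + κ) * hc
  · have hw0 := w_ne κ w hw
    have hz : 2 * w * (i0 / (2 * w)) = i0 := by field_simp
    have hD := (cubic_iff h2 i0 κ w (i0 / (2 * w)) hi hw0 hz).1 hw
    set z := i0 / (2 * w) with hzdef
    refine ⟨fun h => ?_, ![i0 * w, (w ^ 2 - z ^ 2) * (w + z), - i0 * z, 1], fun h => ?_, ?_⟩
    · simpa [Ep] using congrFun h 3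
    · simpa using congrFun h 3
    · simp only [Eqs, Ep, Matrix.cons_val, ← hzdef]
      refine ⟨?_, ?_, ?_, by ring, by ring, ?_⟩
      · linear_combination ((w ^ 2 - z ^ 2) * (w - z) * w) * hi + (w ^ 2 - z ^ 2) * hz
      · linear_combination (-(w ^ 2 - z ^ 2) * (w - z) * z) * hi + (w ^ 2 - z ^ 2) * hz
      · linear_combination i0 * hD
      · linear_combination i0 * hz + hi

lemma classify (h2 : (2 : k) ≠ 0) (i0 κ : k) (hi : i0 ^ 2 = -1) (p q : Fin 4 → k) (hp : p ≠ 0)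
    (hq : q ≠ 0) (h : Eqs i0 κ p q) : ∃ a : k, a ≠ 0 ∧ InS i0 κ (a • p) := by
  by_cases h3 : p 3 = 0
  · rcases case0 h2 i0 κ hi p q hp hq h h3 with ⟨a0, a2, a1, b0, b1, b2, b3⟩ |
      ⟨b, hb, a0, a2, a1, b0, b1, b2, b3⟩ | ⟨b, hb, a0, a02, a2, a1, b0, b1, b2, b3⟩
    · refine ⟨(p 1)⁻¹, inv_ne_zero a1, Or.inl ?_⟩
      funext i
      rw [Pi.smul_apply, smul_eq_mul]
      fin_cases i
      · simp [a0]
      · simp [a1]
      · simp [a2]
      · simp [h3]
    · refine ⟨(p 0)⁻¹, inv_ne_zero a0, Or.inr (Or.inr (Or.inl ?_))⟩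
      funext i
      rw [Pi.smul_apply, smul_eq_mul]
      fin_cases i
      · simp [a0]
      · simp [a1, a0]
      · simp [← a2, a0]
      · simp [h3]
    · refine ⟨(p 0)⁻¹, inv_ne_zero a0, Or.inr (Or.inr (Or.inr (Or.inl ⟨p 1 / p 0, p 2 / p 0,
        ?_, ?_, ?_⟩)))⟩
      · rw [div_pow, a1]; field_simp
      · rw [div_pow]
        field_simp
        linear_combination a2
      · funext i
        rw [Pi.smul_apply, smul_eq_mul]
        fin_cases i
        · simp [Cp, a0]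
        · simp [Cp]; field_simp
        · simp [Cp]; field_simp
        · simp [Cp, h3]
  · rcases case1 i0 κ hi p q hq h h3 with ⟨a0, a2, a1, b0, b1, b2, b3⟩ |
      ⟨-, -, -, a0, -, -, -, -, -, -, -, -, -⟩
    · refine ⟨(p 3)⁻¹, inv_ne_zero h3, Or.inr (Or.inl ?_)⟩
      funext i
      rw [Pi.smul_apply, smul_eq_mul]
      fin_cases i
      · simp [a0]
      · simp [a1]
      · simp [a2]
      · simp [h3]
    · refine ⟨(p 3)⁻¹, inv_ne_zero h3, Or.inr (Or.inr (Or.inr (Or.inr ?_)))⟩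
      have h' := eqs_smul i0 κ p q (p 3)⁻¹ h
      have h3' : ((p 3)⁻¹ • p) 3 = 1 := by
        rw [Pi.smul_apply, smul_eq_mul, inv_mul_cancel₀ h3]
      have h0' : ((p 3)⁻¹ • p) 0 ≠ 0 := by
        rw [Pi.smul_apply, smul_eq_mul]
        exact mul_ne_zero (inv_ne_zero h3) a0
      rcases case1 i0 κ hi _ q hq h' (by rw [h3']; exact one_ne_zero) with ⟨a0', -⟩ |
        ⟨b, t, -, -, -, f6, c0, c2, c1, -⟩
      · exact absurd a0' h0'
      · rw [h3', one_pow] at f6
        obtain ⟨g1, g2⟩ := caseE h2 i0 κ hi _ t h3' h0' f6 c0 c2 c1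
        exact ⟨_, g1, g2⟩

open Classical in
lemma exists_U [IsAlgClosed k] (h2 : (2 : k) ≠ 0) (κ : k) (hd : 16 * κ ^ 4 - 44 * κ ^ 2 - 1 ≠ 0) :
    ∃ U : Finset k, (∀ u, u ∈ U ↔ Fc κ u = 0) ∧ U.card = 3 := by
  let P : Cubic k := ⟨1, 1 + 4 * κ, 1 - 4 * κ, 1⟩
  have ha : P.a ≠ 0 := one_ne_zero
  have hdisc : P.discr ≠ 0 := by
    have h1 : P.discr = 2 ^ 4 * (16 * κ ^ 4 - 44 * κ ^ 2 - 1) := by
      simp only [Cubic.discr, P]
      ring
    rw [h1]
    exact mul_ne_zero (pow_ne_zero _ h2) hd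
  have h3 := Cubic.card_roots_of_discr_ne_zero (φ := RingHom.id k) ha (IsAlgClosed.splits _) hdisc
  refine ⟨_, fun u => ?_, h3⟩
  rw [Multiset.mem_toFinset, Cubic.mem_roots_iff]
  · simp only [Cubic.map, P, RingHom.id_apply, Fc]
    rw [one_mul]
  · rw [Cubic.map_toPoly, Polynomial.map_id]
    exact Cubic.ne_zero_of_a_ne_zero ha

open Classical in
lemma exists_R [IsAlgClosed k] (h2 : (2 : k) ≠ 0) (i0 κ : k) (hi : i0 ^ 2 = -1)
    (hd : 16 * κ ^ 4 - 44 * κ ^ 2 - 1 ≠ 0) :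
    ∃ R : Finset k, (∀ w, w ∈ R ↔ Fc κ (4 * w ^ 4) = 0) ∧ R.card = 12 := by
  obtain ⟨U, hU, hUc⟩ := exists_U h2 κ hd
  have h4 : (4 : k) ≠ 0 := by
    have : (4 : k) = 2 ^ 2 := by norm_num
    rw [this]
    exact pow_ne_zero _ h2
  have hx : ∀ u : k, ∃ x, 4 * x ^ 4 = u := by
    intro u
    obtain ⟨x, hx⟩ := IsAlgClosed.exists_pow_nat_eq (u / 4) (n := 4) (by norm_num)
    exact ⟨x, by rw [hx]; field_simp⟩
  choose x0 hx0 using hx
  have hi0 : i0 ≠ 0 := by
    rintro rfl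
    simp at hi
  let J : Finset k := {1, -1, i0, -i0}
  have hJ : ∀ j, j ∈ J ↔ j ^ 4 = 1 := by
    intro j
    simp only [J, Finset.mem_insert, Finset.mem_singleton]
    constructor
    · rintro (rfl | rfl | rfl | rfl)
      · ring
      · ring
      · linear_combination (j ^ 2 - 1) * hi
      · linear_combination (i0 ^ 2 - 1) * hi
    · intro h
      have h1 : (j - 1) * ((j + 1) * ((j - i0) * (j + i0))) = 0 := by
        linear_combination h - (j ^ 2 - 1) * hi
      rcases mul_eq_zero.1 h1 with h | h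
      · exact Or.inl (sub_eq_zero.1 h)
      rcases mul_eq_zero.1 h with h | h
      · exact Or.inr (Or.inl (eq_neg_of_add_eq_zero_left h))
      rcases mul_eq_zero.1 h with h | h
      · exact Or.inr (Or.inr (Or.inl (sub_eq_zero.1 h)))
      · exact Or.inr (Or.inr (Or.inr (eq_neg_of_add_eq_zero_left h)))
  have hJc : J.card = 4 := by
    have n1 : (1 : k) ≠ -1 := by
      intro h
      apply h2
      linear_combination h
    have n2 : (1 : k) ≠ i0 := by
      rintro rfl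
      apply h2
      linear_combination hi
    have n3 : (1 : k) ≠ -i0 := by
      intro h
      apply h2
      linear_combination (1 - i0) * h + hi
    have n4 : (-1 : k) ≠ i0 := by
      intro h
      apply h2
      linear_combination (i0 - 1) * h + hi
    have n5 : (-1 : k) ≠ -i0 := by
      intro h
      apply n2
      linear_combination -h
    have n6 : i0 ≠ -i0 := by
      intro h
      have : 2 * i0 = 0 := by linear_combination h
      exact (mul_ne_zero h2 hi0) this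
    simp only [J]
    rw [Finset.card_insert_of_notMem, Finset.card_insert_of_notMem, Finset.card_insert_of_notMem,
      Finset.card_singleton]
    · simpa using n6
    · simp only [Finset.mem_insert, Finset.mem_singleton, not_or]
      exact ⟨n4, n5⟩
    · simp only [Finset.mem_insert, Finset.mem_singleton, not_or]
      exact ⟨n1, n2, n3⟩
  refine ⟨(U ×ˢ J).image fun x => x.2 * x0 x.1, fun w => ?_, ?_⟩
  · rw [Finset.mem_image]
    constructor
    · rintro ⟨⟨u, j⟩, hm, rfl⟩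
      rw [Finset.mem_product, hU, hJ] at hm
      have h5 : 4 * (j * x0 u) ^ 4 = u := by
        rw [mul_pow]
        linear_combination (4 * x0 u ^ 4) * hm.2 + hx0 u
      simp only
      rw [h5]
      exact hm.1
    · intro h
      have hw := w_ne κ w h
      have hxu := hx0 (4 * w ^ 4)
      have h5 : x0 (4 * w ^ 4) ^ 4 = w ^ 4 := mul_left_cancel₀ h4 hxu
      have h6 : x0 (4 * w ^ 4) ≠ 0 := by
        intro h7
        rw [h7] at h5
        exact pow_ne_zero 4 hw (by rw [← h5]; ring)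
      refine ⟨(4 * w ^ 4, w / x0 (4 * w ^ 4)), Finset.mem_product.2 ⟨(hU _).2 h, (hJ _).2 ?_⟩, ?_⟩
      · simp only
        rw [div_pow, h5]
        exact div_self (pow_ne_zero 4 hw)
      · exact div_mul_cancel₀ w h6
  · rw [Finset.card_image_of_injOn, Finset.card_product, hUc, hJc]
    rintro ⟨u, j⟩ hm ⟨u', j'⟩ hm' h
    rw [Finset.mem_coe, Finset.mem_product, hU, hJ] at hm hm'
    simp only at h hm hm'
    have h5 : 4 * (j * x0 u) ^ 4 = u := by
      rw [mul_pow]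
      linear_combination (4 * x0 u ^ 4) * hm.2 + hx0 u
    have h5' : 4 * (j' * x0 u') ^ 4 = u' := by
      rw [mul_pow]
      linear_combination (4 * x0 u' ^ 4) * hm'.2 + hx0 u'
    have hu : u = u' := by rw [← h5, ← h5', h]
    subst hu
    have h6 : x0 u ≠ 0 := by
      intro h7
      have h8 := hx0 u
      rw [h7] at h8
      have h9 : u = 0 := by rw [← h8]; ring
      have h10 := hm.1
      rw [h9] at h10
      simp [Fc] at h10
    rw [mul_right_cancel₀ h6 h]

lemma Ep_zero (i0 w : k) : Ep i0 w 0 = w := by simp [Ep]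

lemma Ep_three (i0 w : k) : Ep i0 w 3 = 1 := by simp [Ep]

open Classical in
lemma exists_S [IsAlgClosed k] (h2 : (2 : k) ≠ 0) (i0 κ : k) (hi : i0 ^ 2 = -1) (hκ : κ ≠ 0)
    (hd : 16 * κ ^ 4 - 44 * κ ^ 2 - 1 ≠ 0) :
    ∃ S : Finset (Fin 4 → k), (∀ p, p ∈ S ↔ InS i0 κ p) ∧ S.card = 19 := by
  obtain ⟨R, hR, hRc⟩ := exists_R h2 i0 κ hi hd
  obtain ⟨e0, he0⟩ := IsAlgClosed.exists_pow_nat_eq (2 * κ) (n := 2) (by norm_num)
  have hi0 : i0 ≠ 0 := by
    rintro rfl
    simp at hi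
  have he00 : e0 ≠ 0 := by
    rintro rfl
    apply mul_ne_zero h2 hκ
    rw [← he0]; ring
  have hE : ∀ e : k, e ^ 2 = 2 * κ ↔ e = e0 ∨ e = -e0 := by
    intro e
    rw [← he0]
    exact sq_eq_sq_iff_eq_or_eq_neg
  have hC : ∀ c : k, c ^ 2 = -1 ↔ c = i0 ∨ c = -i0 := by
    intro e
    rw [← hi]
    exact sq_eq_sq_iff_eq_or_eq_neg
  have nn : ∀ a : k, a ≠ 0 → a ≠ -a := by
    intro a ha h
    have : 2 * a = 0 := by linear_combination h
    exact mul_ne_zero h2 ha this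
  let T2 : Finset (Fin 4 → k) := (({e0, -e0} : Finset k) ×ˢ ({i0, -i0} : Finset k)).image
    fun x => Cp x.1 x.2
  let T3 : Finset (Fin 4 → k) := R.image (Ep i0)
  have hT2 : ∀ p, p ∈ T2 ↔ ∃ e c : k, e ^ 2 = 2 * κ ∧ c ^ 2 = -1 ∧ p = Cp e c := by
    intro p
    simp only [T2, Finset.mem_image, Finset.mem_product, Finset.mem_insert, Finset.mem_singleton,
      Prod.exists, hE, hC]
    constructor
    · rintro ⟨e, c, ⟨h1, h3⟩, rfl⟩
      exact ⟨e, c, h1, h3, rfl⟩
    · rintro ⟨e, c, h1, h3, rfl⟩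
      exact ⟨e, c, ⟨h1, h3⟩, rfl⟩
  have hT3 : ∀ p, p ∈ T3 ↔ ∃ w : k, Fc κ (4 * w ^ 4) = 0 ∧ p = Ep i0 w := by
    intro p
    simp only [T3, Finset.mem_image, hR]
    constructor
    · rintro ⟨w, h1, rfl⟩
      exact ⟨w, h1, rfl⟩
    · rintro ⟨w, h1, rfl⟩
      exact ⟨w, h1, rfl⟩
  have hT2c : T2.card = 4 := by
    rw [Finset.card_image_of_injective, Finset.card_product, Finset.card_pair (nn e0 he00),
      Finset.card_pair (nn i0 hi0)]
    rintro ⟨e, c⟩ ⟨e', c'⟩ h
    have h1 := congrFun h 1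
    have h3 := congrFun h 2
    simp only [Cp, Matrix.cons_val] at h1 h3
    rw [h1, h3]
  have hT3c : T3.card = 12 := by
    rw [Finset.card_image_of_injective, hRc]
    intro w w' h
    rw [← Ep_zero i0 w, h, Ep_zero]
  have hdisj : Disjoint T2 T3 := by
    rw [Finset.disjoint_left]
    intro p h1 h3
    obtain ⟨e, c, -, -, rfl⟩ := (hT2 p).1 h1
    obtain ⟨w, -, h⟩ := (hT3 _).1 h3
    have h5 := congrFun h 3
    rw [Ep_three] at h5
    simp [Cp] at h5
  refine ⟨insert ![0, 1, 0, 0] (insert ![0, 0, 0, 1] (insert ![1, 1, 1, 0] (T2 ∪ T3))),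
    fun p => ?_, ?_⟩
  · rw [Finset.mem_insert, Finset.mem_insert, Finset.mem_insert, Finset.mem_union, hT2, hT3]
    rfl
  · rw [Finset.card_insert_of_notMem, Finset.card_insert_of_notMem, Finset.card_insert_of_notMem,
      Finset.card_union_of_disjoint hdisj, hT2c, hT3c]
    · rw [Finset.mem_union, hT2, hT3]
      rintro (⟨e, c, -, hc, h⟩ | ⟨w, -, h⟩)
      · have h1 := congrFun h 2
        simp only [Cp, Matrix.cons_val] at h1
        rw [← h1] at hc
        apply h2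
        linear_combination hc
      · have h1 := congrFun h 3
        rw [Ep_three] at h1
        simp at h1
    · rw [Finset.mem_insert, Finset.mem_union, hT2, hT3]
      rintro (h | ⟨e, c, -, hc, h⟩ | ⟨w, hw, h⟩)
      · simpa using congrFun h 3
      · simpa [Cp] using congrFun h 3
      · have h1 := congrFun h 0
        rw [Ep_zero] at h1
        exact w_ne κ w hw h1.symm
    · rw [Finset.mem_insert, Finset.mem_insert, Finset.mem_union, hT2, hT3]
      rintro (h | h | ⟨e, c, -, hc, h⟩ | ⟨w, hw, h⟩)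
      · simpa using congrFun h 3
      · simpa using congrFun h 0
      · simpa [Cp] using congrFun h 0
      · have h1 := congrFun h 0
        rw [Ep_zero] at h1
        exact w_ne κ w hw h1.symm

/-- normalised vectors -/
lemma norm_of (i0 κ : k) (p : Fin 4 → k) (h : InS i0 κ p) :
    p 3 = 1 ∨ (p 3 = 0 ∧ p 0 = 1) ∨ (p 3 = 0 ∧ p 0 = 0 ∧ p 1 = 1) := by
  rcases h with rfl | rfl | rfl | ⟨e, c, he, hc, rfl⟩ | ⟨w, hw, rfl⟩
  · simp
  · simp
  · simp
  · simp [Cp]
  · simp [Ep]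

lemma norm_inj (i0 κ : k) (p p' : Fin 4 → k) (h : InS i0 κ p) (h' : InS i0 κ p') (a : k)
    (ha : a ≠ 0) (he : a • p' = p) : p' = p := by
  subst he
  have h1 := norm_of i0 κ _ h
  have h1' := norm_of i0 κ _ h'
  simp only [Pi.smul_apply, smul_eq_mul] at h1
  have ha1 : a = 1 := by
    rcases h1' with g | ⟨g, g'⟩ | ⟨g, g', g''⟩
    · rw [g] at h1
      rcases h1 with h1 | ⟨h1, -⟩ | ⟨h1, -⟩
      · simpa using h1
      · exact absurd (by simpa using h1) ha
      · exact absurd (by simpa using h1) ha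
    · rw [g, g'] at h1
      rcases h1 with h1 | ⟨-, h1⟩ | ⟨-, h1, -⟩
      · simp at h1
      · simpa using h1
      · exact absurd (by simpa using h1) ha
    · rw [g, g', g''] at h1
      rcases h1 with h1 | ⟨-, h1⟩ | ⟨-, -, h1⟩
      · simp at h1
      · simp at h1
      · simpa using h1
  rw [ha1, one_smul]

theorem pts : TaskPTS.{u} := by
  intro k _ _ h2 i0 κ hi hκ hd
  refine ⟨?_, fun p q q' hp hq hq' h h' => uniq h2 i0 κ hi p q q' hp hq hq' h h',
    fun p q hp hq h => ⟨sg p, sg_ne p hp, eqs_sg i0 κ hi p q h⟩⟩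
  obtain ⟨S, hS, hSc⟩ := exists_S h2 i0 κ hi hκ hd
  have hne : ∀ p, p ∈ S → p ≠ 0 := fun p hp => (conv h2 i0 κ hi p ((hS p).1 hp)).1
  have hcard : Nat.card S = 19 := by
    rw [Nat.card_eq_fintype_card, Fintype.card_coe, hSc]
  rw [← hcard]
  symm
  refine Nat.card_eq_of_bijective
    (fun p : S => ⟨Projectivization.mk k (p : Fin 4 → k) (hne p p.2), ?_⟩) ⟨?_, ?_⟩
  · obtain ⟨q, hq, h⟩ := (conv h2 i0 κ hi p ((hS p).1 p.2)).2
    obtain ⟨a, ha⟩ := Projectivization.exists_smul_eq_mk_rep k (p : Fin 4 → k) (hne p p.2)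
    refine ⟨q, hq, ?_⟩
    rw [← ha]
    exact eqs_smul i0 κ p q (a : k) h
  · intro p p' h
    have h1 : Projectivization.mk k (p : Fin 4 → k) (hne p p.2) =
      Projectivization.mk k (p' : Fin 4 → k) (hne p' p'.2) := congrArg Subtype.val h
    rw [Projectivization.mk_eq_mk_iff] at h1
    obtain ⟨a, ha⟩ := h1
    refine Subtype.ext (norm_inj i0 κ p p' ((hS p).1 p.2) ((hS p').1 p'.2) (a : k) a.ne_zero ha).symm
  · rintro ⟨P, q, hq, h⟩
    obtain ⟨a, ha, hin⟩ := classify h2 i0 κ hi P.rep q P.rep_nonzero hq h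
    refine ⟨⟨a • P.rep, (hS _).2 hin⟩, Subtype.ext ?_⟩
    simp only
    conv_rhs => rw [← P.mk_rep]
    rw [Projectivization.mk_eq_mk_iff']
    exact ⟨a, rfl⟩

end Pool.Agent.W655.PM
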